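import Mathlib

/-!
# Maps of the egg domain `|z₀|² + |z₁|⁴ < 1`
-/

set_option autoImplicit false

open Metric Filter Topology Set

namespace Q72.SQ

abbrev C2 := EuclideanSpace ℂ (Fin 2)

lemma nsq (z : C2) : ‖z‖ ^ 2 = ‖z 0‖ ^ 2 + ‖z 1‖ ^ 2 := by
  rw [EuclideanSpace.norm_sq_eq, Fin.sum_univ_two]

/-- defining function of the egg -/
noncomputable def rho (z : C2) : ℝ := ‖z 0‖ ^ 2 + ‖z 1‖ ^ 4 - 1

/-- the egg -/
def egg : Set C2 := {z | rho z < 0}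

lemma mem_egg {z : C2} : z ∈ egg ↔ ‖z 0‖ ^ 2 + ‖z 1‖ ^ 4 < 1 := by
  unfold egg rho
  simp only [mem_ofPred_eq]
  constructor <;> intro h <;> linarith

lemma egg_lt0 {z : C2} (hz : z ∈ egg) : ‖z 0‖ < 1 := by
  rw [mem_egg] at hz
  have h1 : 0 ≤ ‖z 1‖ ^ 4 := by positivity
  nlinarith [norm_nonneg (z 0)]

lemma egg_lt1 {z : C2} (hz : z ∈ egg) : ‖z 1‖ < 1 := by
  rw [mem_egg] at hz
  by_contra h
  push Not at h
  have h1 : 1 ≤ ‖z 1‖ ^ 4 := one_le_pow₀ h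
  nlinarith [sq_nonneg ‖z 0‖]

lemma ne_of_norm_lt {a w : ℂ} (ha : ‖a‖ ≤ 1) (hw : ‖w‖ < 1) : 1 - a * w ≠ 0 := by
  intro h
  have h1 : a * w = 1 := by linear_combination -h
  have h2 : ‖a * w‖ < 1 := by
    rw [norm_mul]
    calc ‖a‖ * ‖w‖ ≤ 1 * ‖w‖ := by gcongr
      _ < 1 := by linarith
  rw [h1, norm_one] at h2
  exact lt_irrefl _ h2

lemma ne_of_norm_lt' {a w : ℂ} (ha : ‖a‖ ≤ 1) (hw : ‖w‖ < 1) : 1 + a * w ≠ 0 := by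
  have := ne_of_norm_lt (a := -a) (w := w) (by rwa [norm_neg]) hw
  intro h
  apply this
  linear_combination h

/-- Moebius identity -/
lemma mob (t : ℝ) (w : ℂ) : ‖1 - (t : ℂ) * w‖ ^ 2 - ‖w - (t : ℂ)‖ ^ 2 =
    (1 - t ^ 2) * (1 - ‖w‖ ^ 2) := by
  simp only [← Complex.normSq_eq_norm_sq, Complex.normSq_apply, Complex.sub_re, Complex.sub_im,
    Complex.mul_re, Complex.mul_im, Complex.one_re, Complex.one_im, Complex.ofReal_re,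
    Complex.ofReal_im]
  ring

lemma mob' (t : ℝ) (w : ℂ) : ‖1 + (t : ℂ) * w‖ ^ 2 - ‖w + (t : ℂ)‖ ^ 2 =
    (1 - t ^ 2) * (1 - ‖w‖ ^ 2) := by
  simp only [← Complex.normSq_eq_norm_sq, Complex.normSq_apply, Complex.add_re, Complex.add_im,
    Complex.mul_re, Complex.mul_im, Complex.one_re, Complex.one_im, Complex.ofReal_re,
    Complex.ofReal_im]
  ring

lemma s1 (t w : ℂ) (h : 1 - t * w ≠ 0) (h3 : 1 - t ^ 2 ≠ 0) :
    ((w - t) / (1 - t * w) + t) / ((1 - t ^ 2) / (1 - t * w)) = w := by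
  rw [div_div_eq_mul_div, div_eq_iff h3, add_mul, div_mul_cancel₀ _ h]
  ring

lemma s2 (t w : ℂ) (h : 1 + t * w ≠ 0) (h3 : 1 - t ^ 2 ≠ 0) :
    ((w + t) / (1 + t * w) - t) / ((1 - t ^ 2) / (1 + t * w)) = w := by
  rw [div_div_eq_mul_div, div_eq_iff h3, sub_mul, div_mul_cancel₀ _ h]
  ring

/-! ### The map to the ball -/

/-- embedding of the egg into the ball sending `(0,t)` to `0` -/
noncomputable def F (t : ℝ) (z : C2) : C2 :=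
  !₂[((Real.sqrt (1 - t ^ 2) / Real.sqrt 2 : ℝ) : ℂ) * z 0 / (1 - (t : ℂ) * z 1),
    (z 1 - (t : ℂ)) / (1 - (t : ℂ) * z 1)]

/-- its inverse -/
noncomputable def G (t : ℝ) (u : C2) : C2 :=
  !₂[((Real.sqrt (1 - t ^ 2) * Real.sqrt 2 : ℝ) : ℂ) * u 0 / (1 + (t : ℂ) * u 1),
    (u 1 + (t : ℂ)) / (1 + (t : ℂ) * u 1)]

lemma F0 (t : ℝ) (z : C2) : F t z 0 =
  ((Real.sqrt (1 - t ^ 2) / Real.sqrt 2 : ℝ) : ℂ) * z 0 / (1 - (t : ℂ) * z 1) := rfl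

lemma F1 (t : ℝ) (z : C2) : F t z 1 = (z 1 - (t : ℂ)) / (1 - (t : ℂ) * z 1) := rfl

lemma G0 (t : ℝ) (z : C2) : G t z 0 =
  ((Real.sqrt (1 - t ^ 2) * Real.sqrt 2 : ℝ) : ℂ) * z 0 / (1 + (t : ℂ) * z 1) := rfl

lemma G1 (t : ℝ) (z : C2) : G t z 1 = (z 1 + (t : ℂ)) / (1 + (t : ℂ) * z 1) := rfl

lemma divAt {f d : C2 → ℂ} {x : C2} (hf : DifferentiableAt ℂ f x) (hd : DifferentiableAt ℂ d x)
    (h : d x ≠ 0) : DifferentiableAt ℂ (fun z => f z / d z) x := by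
  have h1 : DifferentiableAt ℂ (fun z => (d z)⁻¹) x := hd.inv h
  simp only [div_eq_mul_inv]
  exact hf.fun_mul h1

lemma diff_coord (i : Fin 2) : Differentiable ℂ (fun z : C2 => z i) :=
  (EuclideanSpace.proj (𝕜 := ℂ) i).differentiable

lemma diffAt_mk {f g : C2 → ℂ} {x : C2} (hf : DifferentiableAt ℂ f x)
    (hg : DifferentiableAt ℂ g x) : DifferentiableAt ℂ (fun z => (!₂[f z, g z] : C2)) x := by
  rw [differentiableAt_euclidean]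
  intro i
  fin_cases i
  · exact hf
  · exact hg

variable {t : ℝ}

lemma nt (ht0 : 0 ≤ t) (ht1 : t < 1) : ‖(t : ℂ)‖ ≤ 1 := by
  rw [Complex.norm_real, Real.norm_of_nonneg ht0]; exact ht1.le

lemma F_diff (ht0 : 0 ≤ t) (ht1 : t < 1) {z : C2} (hz : z ∈ egg) : DifferentiableAt ℂ (F t) z := by
  have h := ne_of_norm_lt (nt ht0 ht1) (egg_lt1 hz)
  have d0 := diff_coord 0 z
  have d1 := diff_coord 1 z
  have dd : DifferentiableAt ℂ (fun z : C2 => 1 - (t : ℂ) * z 1) z := by fun_prop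
  have dn : DifferentiableAt ℂ (fun z : C2 => z 1 - (t : ℂ)) z := by fun_prop
  apply diffAt_mk
  · exact divAt (d0.const_mul _) dd h
  · exact divAt dn dd h

lemma lt1_of_ball {u : C2} (hu : ‖u‖ < 1) (i : Fin 2) : ‖u i‖ < 1 :=
  (PiLp.norm_apply_le u i).trans_lt hu

lemma G_diff (ht0 : 0 ≤ t) (ht1 : t < 1) {u : C2} (hu : ‖u‖ < 1) :
    DifferentiableAt ℂ (G t) u := by
  have h := ne_of_norm_lt' (nt ht0 ht1) (lt1_of_ball hu 1)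
  have d0 := diff_coord 0 u
  have d1 := diff_coord 1 u
  have dd : DifferentiableAt ℂ (fun z : C2 => 1 + (t : ℂ) * z 1) u := by fun_prop
  have dn : DifferentiableAt ℂ (fun z : C2 => z 1 + (t : ℂ)) u := by fun_prop
  apply diffAt_mk
  · exact divAt (d0.const_mul _) dd h
  · exact divAt dn dd h

lemma sqrt_ne (ht0 : 0 ≤ t) (ht1 : t < 1) : ((Real.sqrt (1 - t ^ 2) : ℝ) : ℂ) ≠ 0 := by
  have : 0 < 1 - t ^ 2 := by nlinarith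
  exact_mod_cast (Real.sqrt_pos.2 this).ne'

lemma sqrt_sqC (ht0 : 0 ≤ t) (ht1 : t < 1) :
    ((Real.sqrt (1 - t ^ 2) : ℝ) : ℂ) ^ 2 = 1 - (t : ℂ) ^ 2 := by
  have : 0 ≤ 1 - t ^ 2 := by nlinarith
  rw [← Complex.ofReal_pow, Real.sq_sqrt this]
  push_cast; ring

lemma sqrt2_ne : ((Real.sqrt 2 : ℝ) : ℂ) ≠ 0 := by
  exact_mod_cast (Real.sqrt_pos.2 (by norm_num : (0:ℝ) < 2)).ne'

lemma one_sub_ne (ht0 : 0 ≤ t) (ht1 : t < 1) : (1 - (t : ℂ) ^ 2) ≠ 0 := by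
  rw [← sqrt_sqC ht0 ht1]
  exact pow_ne_zero 2 (sqrt_ne ht0 ht1)

lemma GF (ht0 : 0 ≤ t) (ht1 : t < 1) {z : C2} (hz : z ∈ egg) : G t (F t z) = z := by
  have h := ne_of_norm_lt (nt ht0 ht1) (egg_lt1 hz)
  have hs := sqrt_ne ht0 ht1
  have h2 := sqrt2_ne
  have hq := sqrt_sqC ht0 ht1
  have h3 := one_sub_ne ht0 ht1
  have h4 : 1 + (t : ℂ) * F t z 1 = (1 - (t : ℂ) ^ 2) / (1 - (t : ℂ) * z 1) := by
    rw [F1]; field_simp; ring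
  ext i
  fin_cases i
  · show G t (F t z) 0 = z 0
    rw [G0, h4, F0, ← hq]
    push_cast
    field_simp
  · show G t (F t z) 1 = z 1
    rw [G1, h4, F1]
    exact s1 _ _ h h3

lemma FG (ht0 : 0 ≤ t) (ht1 : t < 1) {u : C2} (hu : ‖u‖ < 1) : F t (G t u) = u := by
  have h := ne_of_norm_lt' (nt ht0 ht1) (lt1_of_ball hu 1)
  have hs := sqrt_ne ht0 ht1
  have h2 := sqrt2_ne
  have hq := sqrt_sqC ht0 ht1
  have h3 := one_sub_ne ht0 ht1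
  have h4 : 1 - (t : ℂ) * G t u 1 = (1 - (t : ℂ) ^ 2) / (1 + (t : ℂ) * u 1) := by
    rw [G1]; field_simp; ring
  ext i
  fin_cases i
  · show F t (G t u) 0 = u 0
    rw [F0, h4, G0, ← hq]
    push_cast
    field_simp
  · show F t (G t u) 1 = u 1
    rw [F1, h4, G1]
    exact s2 _ _ h h3

lemma F_ball (ht0 : 0 ≤ t) (ht1 : t < 1) {z : C2} (hz : z ∈ egg) : ‖F t z‖ < 1 := by
  have h := ne_of_norm_lt (nt ht0 ht1) (egg_lt1 hz)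
  have hpos : 0 < ‖1 - (t : ℂ) * z 1‖ ^ 2 := by
    have := norm_pos_iff.2 h
    positivity
  have h1 : ‖F t z‖ ^ 2 < 1 := by
    rw [nsq, F0, F1, norm_div, norm_div, norm_mul, Complex.norm_real,
      Real.norm_of_nonneg (by positivity), div_pow, div_pow, ← add_div, div_lt_one hpos,
      mul_pow, div_pow, Real.sq_sqrt (by nlinarith), Real.sq_sqrt (by norm_num)]
    have h2 := mob t (z 1)
    have h3 : 0 < 1 - t ^ 2 := by nlinarith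
    have h4 : ‖z 0‖ ^ 2 / 2 < 1 - ‖z 1‖ ^ 2 := by
      have h5 := mem_egg.1 hz
      nlinarith [sq_nonneg (1 - ‖z 1‖ ^ 2)]
    nlinarith
  nlinarith [norm_nonneg (F t z)]

lemma G_egg (ht0 : 0 ≤ t) (ht1 : t < 1) {r : ℝ} (hr0 : 0 < r) (hr1 : r < 1)
    (hc : 1 - t ^ 2 ≤ 2 * (1 - r) ^ 2 * (1 - r ^ 2)) {u : C2} (hu : ‖u‖ < r) : G t u ∈ egg := by
  have hu1 : ‖u‖ < 1 := hu.trans hr1
  have h := ne_of_norm_lt' (nt ht0 ht1) (lt1_of_ball hu1 1)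
  set N : ℝ := ‖1 + (t : ℂ) * u 1‖ ^ 2 with hN
  have hpos : 0 < N := by
    have := norm_pos_iff.2 h
    positivity
  have hT : 0 < 1 - t ^ 2 := by nlinarith
  have hu1r : ‖u 1‖ ≤ ‖u‖ := PiLp.norm_apply_le u 1
  have hNr : (1 - r) ^ 2 < N := by
    have h1 : 1 - t * ‖u 1‖ ≤ ‖1 + (t : ℂ) * u 1‖ := by
      have h2 := norm_sub_norm_le (1 : ℂ) (-((t : ℂ) * u 1))
      rw [norm_neg, norm_mul, Complex.norm_real, Real.norm_of_nonneg ht0, norm_one,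
        sub_neg_eq_add] at h2
      exact h2
    have h3 : t * ‖u 1‖ < r := by nlinarith [norm_nonneg (u 1)]
    have h4 : 1 - r < ‖1 + (t : ℂ) * u 1‖ := by linarith
    rw [hN]
    nlinarith
  have hm := mob' t (u 1)
  rw [← hN] at hm
  have hy : ‖G t u 1‖ ^ 2 = 1 - (1 - t ^ 2) * (1 - ‖u 1‖ ^ 2) / N := by
    rw [G1, norm_div, div_pow, ← hN]
    field_simp
    linarith
  have hx : ‖G t u 0‖ ^ 2 = 2 * (1 - t ^ 2) * ‖u 0‖ ^ 2 / N := by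
    rw [G0, norm_div, norm_mul, Complex.norm_real, Real.norm_of_nonneg (by positivity), div_pow,
      ← hN, mul_pow, mul_pow, Real.sq_sqrt hT.le, Real.sq_sqrt (by norm_num)]
    ring
  rw [mem_egg]
  have h4 : ‖G t u 1‖ ^ 4 = (‖G t u 1‖ ^ 2) ^ 2 := by ring
  rw [h4, hy, hx]
  set Y : ℝ := (1 - t ^ 2) * (1 - ‖u 1‖ ^ 2) / N with hY
  -- goal : 2 (1-t²)|u0|²/N + (1-Y)² < 1
  have hn := nsq u
  have hun : ‖u‖ ^ 2 < r ^ 2 := by nlinarith [norm_nonneg u]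
  have hkey : Y ^ 2 < 2 * ((1 - t ^ 2) * (1 - ‖u‖ ^ 2) / N) := by
    have hY2 : Y ^ 2 = (1 - t ^ 2) ^ 2 * (1 - ‖u 1‖ ^ 2) ^ 2 / N ^ 2 := by
      rw [hY, div_pow, mul_pow]
    rw [hY2, div_lt_iff₀ (by positivity)]
    have h5 : 2 * ((1 - t ^ 2) * (1 - ‖u‖ ^ 2) / N) * N ^ 2 =
        2 * (1 - t ^ 2) * (1 - ‖u‖ ^ 2) * N := by field_simp
    rw [h5]
    have h6 : (1 - ‖u 1‖ ^ 2) ^ 2 ≤ 1 := by
      have h7 : ‖u 1‖ < 1 := lt1_of_ball hu1 1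
      have h8 : ‖u 1‖ ^ 2 ≤ 1 := by nlinarith [norm_nonneg (u 1)]
      nlinarith [sq_nonneg ‖u 1‖]
    have h9 : (1 - t ^ 2) * (1 - ‖u 1‖ ^ 2) ^ 2 ≤ 2 * (1 - r) ^ 2 * (1 - r ^ 2) := by
      calc (1 - t ^ 2) * (1 - ‖u 1‖ ^ 2) ^ 2 ≤ (1 - t ^ 2) * 1 := by gcongr
        _ ≤ _ := by linarith
    have hr2 : 0 < 1 - r ^ 2 := by nlinarith
    have h10 : 2 * (1 - r) ^ 2 * (1 - r ^ 2) < 2 * (1 - ‖u‖ ^ 2) * N := by
      have h11 : (1 - r) ^ 2 * (1 - r ^ 2) < N * (1 - r ^ 2) :=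
        mul_lt_mul_of_pos_right hNr hr2
      have h12 : N * (1 - r ^ 2) ≤ N * (1 - ‖u‖ ^ 2) := by
        apply mul_le_mul_of_nonneg_left _ hpos.le
        linarith
      calc 2 * (1 - r) ^ 2 * (1 - r ^ 2) = 2 * ((1 - r) ^ 2 * (1 - r ^ 2)) := by ring
        _ < 2 * (N * (1 - ‖u‖ ^ 2)) := by linarith
        _ = 2 * (1 - ‖u‖ ^ 2) * N := by ring
    have h13 := mul_lt_mul_of_pos_left (h9.trans_lt h10) hT
    calc (1 - t ^ 2) ^ 2 * (1 - ‖u 1‖ ^ 2) ^ 2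
        = (1 - t ^ 2) * ((1 - t ^ 2) * (1 - ‖u 1‖ ^ 2) ^ 2) := by ring
      _ < (1 - t ^ 2) * (2 * (1 - ‖u‖ ^ 2) * N) := h13
      _ = 2 * (1 - t ^ 2) * (1 - ‖u‖ ^ 2) * N := by ring
  have hx2 : 2 * (1 - t ^ 2) * ‖u 0‖ ^ 2 / N =
      2 * Y - 2 * ((1 - t ^ 2) * (1 - ‖u‖ ^ 2) / N) := by
    rw [hY, hn]; field_simp; ring
  rw [hx2]
  clear_value Y N
  linarith [hkey, sq_nonneg Y, (by ring : (1 - Y) ^ 2 = 1 - 2 * Y + Y ^ 2)]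

/-! ### The automorphisms of the egg -/

/-- the multiplier -/
noncomputable def g (b : ℝ) (ζ : ℂ) : ℂ := Complex.exp (-(1 / 2) * Complex.log (1 + (b : ℂ) * ζ))

/-- constant -/
noncomputable def c (b : ℝ) : ℝ := Real.sqrt (Real.sqrt (1 - b ^ 2))

noncomputable def Ψ (b : ℝ) (z : C2) : C2 :=
  !₂[(z 0 + (b : ℂ)) / (1 + (b : ℂ) * z 0), (c b : ℂ) * z 1 * g b (z 0)]

noncomputable def Φ (b : ℝ) (w : C2) : C2 :=
  !₂[(w 0 - (b : ℂ)) / (1 - (b : ℂ) * w 0),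
    w 1 / ((c b : ℂ) * g b ((w 0 - (b : ℂ)) / (1 - (b : ℂ) * w 0)))]

lemma Ψ0 (b : ℝ) (z : C2) : Ψ b z 0 = (z 0 + (b : ℂ)) / (1 + (b : ℂ) * z 0) := rfl
lemma Ψ1 (b : ℝ) (z : C2) : Ψ b z 1 = (c b : ℂ) * z 1 * g b (z 0) := rfl
lemma Φ0 (b : ℝ) (w : C2) : Φ b w 0 = (w 0 - (b : ℂ)) / (1 - (b : ℂ) * w 0) := rfl
lemma Φ1 (b : ℝ) (w : C2) : Φ b w 1 =
    w 1 / ((c b : ℂ) * g b ((w 0 - (b : ℂ)) / (1 - (b : ℂ) * w 0))) := rfl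

variable {b : ℝ}

lemma g_ne (b : ℝ) (ζ : ℂ) : g b ζ ≠ 0 := Complex.exp_ne_zero _

lemma c_pos (hb0 : 0 ≤ b) (hb1 : b < 1) : 0 < c b := by
  apply Real.sqrt_pos.2
  apply Real.sqrt_pos.2
  nlinarith

lemma c_ne (hb0 : 0 ≤ b) (hb1 : b < 1) : (c b : ℂ) ≠ 0 := by
  exact_mod_cast (c_pos hb0 hb1).ne'

lemma c_four (hb0 : 0 ≤ b) (hb1 : b < 1) : c b ^ 4 = 1 - b ^ 2 := by
  have h1 : c b ^ 4 = (c b ^ 2) ^ 2 := by ring
  rw [h1, c, Real.sq_sqrt (Real.sqrt_nonneg _), Real.sq_sqrt (by nlinarith)]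

lemma slit {ζ : ℂ} (hb0 : 0 ≤ b) (hb1 : b < 1) (hζ : ‖ζ‖ < 1) :
    1 + (b : ℂ) * ζ ∈ Complex.slitPlane := by
  left
  have h1 : |ζ.re| ≤ ‖ζ‖ := Complex.abs_re_le_norm ζ
  have h2 := abs_le.1 h1
  simp only [Complex.add_re, Complex.one_re, Complex.mul_re, Complex.ofReal_re,
    Complex.ofReal_im, zero_mul, sub_zero]
  nlinarith

lemma g_norm {ζ : ℂ} (hb0 : 0 ≤ b) (hb1 : b < 1) (hζ : ‖ζ‖ < 1) :
    ‖g b ζ‖ ^ 4 * ‖1 + (b : ℂ) * ζ‖ ^ 2 = 1 := by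
  have hne := ne_of_norm_lt' (nt hb0 hb1) hζ
  have h1 : g b ζ ^ 2 * (1 + (b : ℂ) * ζ) = 1 := by
    rw [g, ← Complex.exp_nat_mul]
    nth_rewrite 2 [← Complex.exp_log hne]
    rw [← Complex.exp_add]
    have : ((2 : ℕ) : ℂ) * (-(1 / 2) * Complex.log (1 + (b : ℂ) * ζ)) +
        Complex.log (1 + (b : ℂ) * ζ) = 0 := by push_cast; ring
    rw [this, Complex.exp_zero]
  have h2 : ‖g b ζ ^ 2 * (1 + (b : ℂ) * ζ)‖ = 1 := by rw [h1, norm_one]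
  rw [norm_mul, norm_pow] at h2
  calc ‖g b ζ‖ ^ 4 * ‖1 + (b : ℂ) * ζ‖ ^ 2 = (‖g b ζ‖ ^ 2 * ‖1 + (b : ℂ) * ζ‖) ^ 2 := by ring
    _ = 1 := by rw [h2]; norm_num

lemma g_diff {ζ : ℂ} (hb0 : 0 ≤ b) (hb1 : b < 1) (hζ : ‖ζ‖ < 1) :
    DifferentiableAt ℂ (g b) ζ := by
  unfold g
  have h : DifferentiableAt ℂ (fun ζ : ℂ => 1 + (b : ℂ) * ζ) ζ := by fun_prop
  exact ((h.clog (slit hb0 hb1 hζ)).const_mul _).cexp

lemma mob_lt (hb0 : 0 ≤ b) (hb1 : b < 1) {w : ℂ} (hw : ‖w‖ < 1) :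
    ‖(w - (b : ℂ)) / (1 - (b : ℂ) * w)‖ < 1 := by
  have h := ne_of_norm_lt (nt hb0 hb1) hw
  have hpos := norm_pos_iff.2 h
  rw [norm_div, div_lt_one hpos]
  have h1 := mob b w
  have h2 : 0 < (1 - b ^ 2) * (1 - ‖w‖ ^ 2) := by
    apply mul_pos
    · nlinarith
    · nlinarith [norm_nonneg w]
  nlinarith [norm_nonneg (w - (b : ℂ))]

lemma Ψ_diff (hb0 : 0 ≤ b) (hb1 : b < 1) {z : C2} (hz : z ∈ egg) :
    DifferentiableAt ℂ (Ψ b) z := by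
  have h := ne_of_norm_lt' (nt hb0 hb1) (egg_lt0 hz)
  have d0 := diff_coord 0 z
  have d1 := diff_coord 1 z
  have hg : DifferentiableAt ℂ (fun z : C2 => g b (z 0)) z :=
    DifferentiableAt.comp (g := g b) z (g_diff hb0 hb1 (egg_lt0 hz)) d0
  have dd : DifferentiableAt ℂ (fun z : C2 => 1 + (b : ℂ) * z 0) z := by fun_prop
  have dn : DifferentiableAt ℂ (fun z : C2 => z 0 + (b : ℂ)) z := by fun_prop
  apply diffAt_mk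
  · exact divAt dn dd h
  · exact (d1.const_mul _).fun_mul hg

lemma Φ_diff (hb0 : 0 ≤ b) (hb1 : b < 1) {w : C2} (hw : w ∈ egg) :
    DifferentiableAt ℂ (Φ b) w := by
  have h := ne_of_norm_lt (nt hb0 hb1) (egg_lt0 hw)
  have d0 := diff_coord 0 w
  have d1 := diff_coord 1 w
  have dd : DifferentiableAt ℂ (fun z : C2 => 1 - (b : ℂ) * z 0) w := by fun_prop
  have dn : DifferentiableAt ℂ (fun z : C2 => z 0 - (b : ℂ)) w := by fun_prop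
  have hm : DifferentiableAt ℂ (fun w : C2 => (w 0 - (b : ℂ)) / (1 - (b : ℂ) * w 0)) w :=
    divAt dn dd h
  have hg : DifferentiableAt ℂ (fun w : C2 => g b ((w 0 - (b : ℂ)) / (1 - (b : ℂ) * w 0))) w :=
    DifferentiableAt.comp (g := g b) w (g_diff hb0 hb1 (mob_lt hb0 hb1 (egg_lt0 hw))) hm
  have hg2 : DifferentiableAt ℂ
      (fun w : C2 => (c b : ℂ) * g b ((w 0 - (b : ℂ)) / (1 - (b : ℂ) * w 0))) w :=
    hg.const_mul _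
  apply diffAt_mk
  · exact hm
  · exact divAt d1 hg2 (mul_ne_zero (c_ne hb0 hb1) (g_ne _ _))

lemma ΨΦ (hb0 : 0 ≤ b) (hb1 : b < 1) {w : C2} (hw : w ∈ egg) : Ψ b (Φ b w) = w := by
  have h := ne_of_norm_lt (nt hb0 hb1) (egg_lt0 hw)
  have h3 := one_sub_ne hb0 hb1
  have hc := c_ne hb0 hb1
  have h4 : 1 + (b : ℂ) * Φ b w 0 = (1 - (b : ℂ) ^ 2) / (1 - (b : ℂ) * w 0) := by
    rw [Φ0]; field_simp; ring
  ext i
  fin_cases i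
  · show Ψ b (Φ b w) 0 = w 0
    rw [Ψ0, h4, Φ0]
    exact s1 _ _ h h3
  · show Ψ b (Φ b w) 1 = w 1
    rw [Ψ1, Φ1, ← Φ0]
    have := g_ne b (Φ b w 0)
    field_simp

lemma ΦΨ (hb0 : 0 ≤ b) (hb1 : b < 1) {z : C2} (hz : z ∈ egg) : Φ b (Ψ b z) = z := by
  have h := ne_of_norm_lt' (nt hb0 hb1) (egg_lt0 hz)
  have h3 := one_sub_ne hb0 hb1
  have hc := c_ne hb0 hb1
  have h4 : 1 - (b : ℂ) * Ψ b z 0 = (1 - (b : ℂ) ^ 2) / (1 + (b : ℂ) * z 0) := by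
    rw [Ψ0]; field_simp; ring
  have h5 : (Ψ b z 0 - (b : ℂ)) / (1 - (b : ℂ) * Ψ b z 0) = z 0 := by
    rw [h4, Ψ0]
    exact s2 _ _ h h3
  ext i
  fin_cases i
  · show Φ b (Ψ b z) 0 = z 0
    rw [Φ0, h5]
  · show Φ b (Ψ b z) 1 = z 1
    rw [Φ1, h5, Ψ1]
    have := g_ne b (z 0)
    field_simp

lemma Ψ_egg (hb0 : 0 ≤ b) (hb1 : b < 1) {z : C2} (hz : z ∈ egg) : Ψ b z ∈ egg := by
  have h := ne_of_norm_lt' (nt hb0 hb1) (egg_lt0 hz)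
  have hpos : 0 < ‖1 + (b : ℂ) * z 0‖ ^ 2 := by
    have := norm_pos_iff.2 h
    positivity
  have hg := g_norm hb0 hb1 (egg_lt0 hz)
  have hm := mob' b (z 0)
  have hB : 0 < 1 - b ^ 2 := by nlinarith
  rw [mem_egg, Ψ0, Ψ1, norm_div, div_pow, norm_mul, norm_mul, mul_pow, mul_pow,
    Complex.norm_real, Real.norm_of_nonneg (c_pos hb0 hb1).le, c_four hb0 hb1]
  have h1 : ‖g b (z 0)‖ ^ 4 = 1 / ‖1 + (b : ℂ) * z 0‖ ^ 2 := by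
    field_simp
    linarith
  rw [h1, mul_one_div, ← add_div, div_lt_one hpos]
  have h2 := mem_egg.1 hz
  nlinarith

lemma Φ_egg (hb0 : 0 ≤ b) (hb1 : b < 1) {w : C2} (hw : w ∈ egg) : Φ b w ∈ egg := by
  have h := ne_of_norm_lt (nt hb0 hb1) (egg_lt0 hw)
  have hpos : 0 < ‖1 - (b : ℂ) * w 0‖ ^ 2 := by
    have := norm_pos_iff.2 h
    positivity
  have hlt := mob_lt hb0 hb1 (egg_lt0 hw)
  have hg := g_norm hb0 hb1 hlt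
  have hm := mob b (w 0)
  have hB : 0 < 1 - b ^ 2 := by nlinarith
  have hBC := one_sub_ne hb0 hb1
  have h4 : 1 + (b : ℂ) * ((w 0 - (b : ℂ)) / (1 - (b : ℂ) * w 0)) =
      ((1 - b ^ 2 : ℝ) : ℂ) / (1 - (b : ℂ) * w 0) := by
    push_cast
    field_simp; ring
  rw [h4, norm_div, div_pow, Complex.norm_real, Real.norm_of_nonneg hB.le] at hg
  have h1 : 1 / ‖g b ((w 0 - (b : ℂ)) / (1 - (b : ℂ) * w 0))‖ ^ 4 =
      (1 - b ^ 2) ^ 2 / ‖1 - (b : ℂ) * w 0‖ ^ 2 := by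
    have hne := norm_pos_iff.2 (g_ne b ((w 0 - (b : ℂ)) / (1 - (b : ℂ) * w 0)))
    rw [div_eq_iff (by positivity)]
    linarith
  rw [mem_egg, Φ0, Φ1, norm_div, div_pow, norm_div, norm_mul, div_pow, mul_pow,
    Complex.norm_real, Real.norm_of_nonneg (c_pos hb0 hb1).le, c_four hb0 hb1]
  have h5 : ‖w 1‖ ^ 4 / ((1 - b ^ 2) * ‖g b ((w 0 - (b : ℂ)) / (1 - (b : ℂ) * w 0))‖ ^ 4) =
      ‖w 1‖ ^ 4 / (1 - b ^ 2) *
        (1 / ‖g b ((w 0 - (b : ℂ)) / (1 - (b : ℂ) * w 0))‖ ^ 4) := by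
    field_simp
  rw [h5, h1]
  have h6 : ‖w 1‖ ^ 4 / (1 - b ^ 2) * ((1 - b ^ 2) ^ 2 / ‖1 - (b : ℂ) * w 0‖ ^ 2) =
      ‖w 1‖ ^ 4 * (1 - b ^ 2) / ‖1 - (b : ℂ) * w 0‖ ^ 2 := by
    field_simp
  rw [h6, ← add_div, div_lt_one hpos]
  have h2 := mem_egg.1 hw
  nlinarith

end Q72.SQ
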