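import Mathlib
import Pool.Agent.Q72.SQ.Maps

/-!
# Geometry of the egg domain `|z₀|² + |z₁|⁴ < 1`
-/

set_option autoImplicit false

open Metric Filter Topology Set

namespace Q72.SQ

/-! ### Derivatives along lines -/

lemma line_hasDerivAt {E : Type*} [NormedAddCommGroup E] [NormedSpace ℝ E] {f : E → ℝ}
    (hf : ContDiff ℝ 2 f) (x w : E) (s : ℝ) :
    HasDerivAt (fun t : ℝ => f (x + t • w)) (fderiv ℝ f (x + s • w) w) s := by
  have h1 : HasFDerivAt f (fderiv ℝ f (x + s • w)) (x + s • w) :=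
    (hf.differentiable (by norm_num) _).hasFDerivAt
  have h2 : HasDerivAt (fun t : ℝ => x + t • w) w s := by
    have := ((hasDerivAt_id s).smul_const w).const_add x
    simpa using this
  exact h1.comp_hasDerivAt s h2

lemma line_two {E : Type*} [NormedAddCommGroup E] [NormedSpace ℝ E] {f : E → ℝ}
    (hf : ContDiff ℝ 2 f) (x w : E) :
    HasDerivAt (fun s : ℝ => fderiv ℝ f (x + s • w) w) (iteratedFDeriv ℝ 2 f x ![w, w]) 0 := by
  have hf' : ContDiff ℝ 1 (fderiv ℝ f) := hf.fderiv_right (by norm_num)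
  have h1 : HasFDerivAt (fderiv ℝ f) (fderiv ℝ (fderiv ℝ f) x) (x + (0 : ℝ) • w) := by
    rw [zero_smul, add_zero]
    exact (hf'.differentiable (by norm_num) _).hasFDerivAt
  have h2 : HasDerivAt (fun t : ℝ => x + t • w) w 0 := by
    have := ((hasDerivAt_id (0 : ℝ)).smul_const w).const_add x
    simpa using this
  have h3 := h1.comp_hasDerivAt (0 : ℝ) h2
  have h4 := h3.clm_apply (hasDerivAt_const (0 : ℝ) w)
  rw [iteratedFDeriv_two_apply]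
  simpa using h4

/-- value of the first and the second derivative along a line on which `f` is a polynomial -/
lemma of_poly {E : Type*} [NormedAddCommGroup E] [NormedSpace ℝ E] {f : E → ℝ}
    (hf : ContDiff ℝ 2 f) (x w : E) (c0 c1 c2 c3 c4 : ℝ)
    (h : ∀ t : ℝ, f (x + t • w) = c0 + c1 * t + c2 * t ^ 2 + c3 * t ^ 3 + c4 * t ^ 4) :
    fderiv ℝ f x w = c1 ∧ iteratedFDeriv ℝ 2 f x ![w, w] = 2 * c2 := by
  have h1 : ∀ s : ℝ, fderiv ℝ f (x + s • w) w = c1 + 2 * c2 * s + 3 * c3 * s ^ 2 +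
      4 * c4 * s ^ 3 := by
    intro s
    have e1 := line_hasDerivAt hf x w s
    have e2 : HasDerivAt (fun t : ℝ => c0 + c1 * t + c2 * t ^ 2 + c3 * t ^ 3 + c4 * t ^ 4)
        (0 + c1 * 1 + c2 * (((2 : ℕ) : ℝ) * s ^ (2 - 1)) + c3 * (((3 : ℕ) : ℝ) * s ^ (3 - 1)) +
          c4 * (((4 : ℕ) : ℝ) * s ^ (4 - 1))) s :=
      ((((hasDerivAt_const s c0).fun_add ((hasDerivAt_id s).const_mul c1)).fun_add
        ((hasDerivAt_pow 2 s).const_mul c2)).fun_add ((hasDerivAt_pow 3 s).const_mul c3)).fun_add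
        ((hasDerivAt_pow 4 s).const_mul c4)
    have e3 : (fun t : ℝ => f (x + t • w)) =
      fun t : ℝ => c0 + c1 * t + c2 * t ^ 2 + c3 * t ^ 3 + c4 * t ^ 4 := funext h
    rw [e3] at e1
    rw [e1.unique e2]
    norm_num
    ring
  refine ⟨?_, ?_⟩
  · have := h1 0
    simpa using this
  · have e1 := line_two hf x w
    have e2 : (fun s : ℝ => fderiv ℝ f (x + s • w) w) =
      fun s : ℝ => c1 + 2 * c2 * s + 3 * c3 * s ^ 2 + 4 * c4 * s ^ 3 := funext h1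
    rw [e2] at e1
    have e3 : HasDerivAt (fun s : ℝ => c1 + 2 * c2 * s + 3 * c3 * s ^ 2 + 4 * c4 * s ^ 3)
        (0 + 2 * c2 * 1 + 3 * c3 * (((2 : ℕ) : ℝ) * 0 ^ (2 - 1)) +
          4 * c4 * (((3 : ℕ) : ℝ) * 0 ^ (3 - 1))) 0 :=
      (((hasDerivAt_const (0 : ℝ) c1).fun_add ((hasDerivAt_id (0 : ℝ)).const_mul
        (2 * c2))).fun_add ((hasDerivAt_pow 2 (0 : ℝ)).const_mul (3 * c3))).fun_add
        ((hasDerivAt_pow 3 (0 : ℝ)).const_mul (4 * c4))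
    rw [e1.unique e3]
    norm_num

/-! ### The defining function -/

lemma contDiff_coord_sq (i : Fin 2) {n : WithTop ℕ∞} : ContDiff ℝ n (fun z : C2 => ‖z i‖ ^ 2) := by
  have h1 : ContDiff ℝ n (fun z : C2 => z i) :=
    ((EuclideanSpace.proj i : C2 →L[ℂ] ℂ).restrictScalars ℝ).contDiff
  exact h1.norm_sq ℝ

lemma rho_contDiff {n : WithTop ℕ∞} : ContDiff ℝ n rho := by
  have h0 := contDiff_coord_sq 0 (n := n)
  have h1 := contDiff_coord_sq 1 (n := n)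
  have e : rho = fun z : C2 => ‖z 0‖ ^ 2 + (‖z 1‖ ^ 2) ^ 2 - 1 := by
    funext z; unfold rho; ring
  rw [e]
  exact (h0.add (h1.pow 2)).sub contDiff_const

lemma norm_line (a w : ℂ) (t : ℝ) : ‖a + (t : ℂ) * w‖ ^ 2 =
    ‖a‖ ^ 2 + 2 * ((starRingEnd ℂ a) * w).re * t + ‖w‖ ^ 2 * t ^ 2 := by
  simp only [← Complex.normSq_eq_norm_sq, Complex.normSq_apply, Complex.add_re, Complex.add_im,
    Complex.mul_re, Complex.mul_im, Complex.ofReal_re, Complex.ofReal_im, Complex.conj_re,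
    Complex.conj_im]
  ring

lemma smul_coord (t : ℝ) (w : C2) (i : Fin 2) : (t • w) i = (t : ℂ) * w i := by
  simp

lemma rho_line (q w : C2) (t : ℝ) : rho (q + t • w) =
    rho q + (2 * ((starRingEnd ℂ (q 0)) * w 0).re +
        4 * ‖q 1‖ ^ 2 * ((starRingEnd ℂ (q 1)) * w 1).re) * t +
      (‖w 0‖ ^ 2 + 4 * (((starRingEnd ℂ (q 1)) * w 1).re) ^ 2 +
        2 * ‖q 1‖ ^ 2 * ‖w 1‖ ^ 2) * t ^ 2 +
      (4 * ((starRingEnd ℂ (q 1)) * w 1).re * ‖w 1‖ ^ 2) * t ^ 3 +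
      (‖w 1‖ ^ 4) * t ^ 4 := by
  have e0 : (q + t • w) 0 = q 0 + (t : ℂ) * w 0 := by simp
  have e1 : (q + t • w) 1 = q 1 + (t : ℂ) * w 1 := by simp
  unfold rho
  rw [e0, e1]
  have h4 : ‖q 1 + (t : ℂ) * w 1‖ ^ 4 = (‖q 1 + (t : ℂ) * w 1‖ ^ 2) ^ 2 := by ring
  rw [h4, norm_line, norm_line]
  ring

lemma rho_fderiv (q w : C2) : fderiv ℝ rho q w = 2 * ((starRingEnd ℂ (q 0)) * w 0).re +
        4 * ‖q 1‖ ^ 2 * ((starRingEnd ℂ (q 1)) * w 1).re :=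
  (of_poly rho_contDiff q w _ _ _ _ _ (rho_line q w)).1

lemma rho_two (q w : C2) : iteratedFDeriv ℝ 2 rho q ![w, w] =
    2 * (‖w 0‖ ^ 2 + 4 * (((starRingEnd ℂ (q 1)) * w 1).re) ^ 2 +
        2 * ‖q 1‖ ^ 2 * ‖w 1‖ ^ 2) :=
  (of_poly rho_contDiff q w _ _ _ _ _ (rho_line q w)).2

lemma rho_levi (q w : C2) : iteratedFDeriv ℝ 2 rho q ![w, w] +
    iteratedFDeriv ℝ 2 rho q ![Complex.I • w, Complex.I • w] =
      4 * (‖w 0‖ ^ 2 + 4 * ‖q 1‖ ^ 2 * ‖w 1‖ ^ 2) := by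
  rw [rho_two, rho_two]
  have e0 : (Complex.I • w) 0 = Complex.I * w 0 := by simp
  have e1 : (Complex.I • w) 1 = Complex.I * w 1 := by simp
  rw [e0, e1, norm_mul, norm_mul, Complex.norm_I, one_mul, one_mul]
  simp only [← Complex.normSq_eq_norm_sq, Complex.normSq_apply,
    Complex.mul_re, Complex.mul_im, Complex.conj_re,
    Complex.conj_im, Complex.I_re, Complex.I_im]
  ring

lemma rho_fderiv_ne {q : C2} (hq : rho q = 0) : fderiv ℝ rho q ≠ 0 := by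
  intro h
  have h1 := rho_fderiv q q
  rw [h] at h1
  have e : ∀ a : ℂ, ((starRingEnd ℂ a) * a).re = ‖a‖ ^ 2 := by
    intro a
    rw [← Complex.normSq_eq_norm_sq, Complex.normSq_apply]
    simp
  rw [e, e] at h1
  have h2 : 2 * ‖q 0‖ ^ 2 + 4 * ‖q 1‖ ^ 4 = 0 := by
    have : (0 : C2 →L[ℝ] ℝ) q = 0 := rfl
    rw [this] at h1
    nlinarith
  have h3 : rho q = ‖q 0‖ ^ 2 + ‖q 1‖ ^ 4 - 1 := rfl
  rw [hq] at h3
  nlinarith [sq_nonneg ‖q 0‖, sq_nonneg (‖q 1‖ ^ 2)]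

/-! ### Convexity, boundedness -/

lemma egg_open : IsOpen egg := by
  have : Continuous rho := (rho_contDiff (n := 0)).continuous
  exact isOpen_lt this continuous_const

lemma egg_bounded : Bornology.IsBounded egg := by
  rw [isBounded_iff_forall_norm_le]
  refine ⟨2, fun z hz => ?_⟩
  have h0 := egg_lt0 hz
  have h1 := egg_lt1 hz
  have h2 := nsq z
  nlinarith [norm_nonneg z, norm_nonneg (z 0), norm_nonneg (z 1)]

lemma egg_convex : Convex ℝ egg := by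
  intro x hx y hy a b ha hb hab
  rw [mem_egg] at *
  have e0 : (a • x + b • y) 0 = (a : ℂ) * x 0 + (b : ℂ) * y 0 := by simp
  have e1 : (a • x + b • y) 1 = (a : ℂ) * x 1 + (b : ℂ) * y 1 := by simp
  have h0 : ‖(a • x + b • y) 0‖ ≤ a * ‖x 0‖ + b * ‖y 0‖ := by
    rw [e0]
    refine (norm_add_le _ _).trans ?_
    rw [norm_mul, norm_mul, Complex.norm_real, Complex.norm_real, Real.norm_of_nonneg ha,
      Real.norm_of_nonneg hb]
  have h1 : ‖(a • x + b • y) 1‖ ≤ a * ‖x 1‖ + b * ‖y 1‖ := by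
    rw [e1]
    refine (norm_add_le _ _).trans ?_
    rw [norm_mul, norm_mul, Complex.norm_real, Complex.norm_real, Real.norm_of_nonneg ha,
      Real.norm_of_nonneg hb]
  have c2 : (a * ‖x 0‖ + b * ‖y 0‖) ^ 2 ≤ a * ‖x 0‖ ^ 2 + b * ‖y 0‖ ^ 2 := by
    have := (convexOn_pow 2).2 (norm_nonneg (x 0)) (norm_nonneg (y 0)) ha hb hab
    simpa using this
  have c4 : (a * ‖x 1‖ + b * ‖y 1‖) ^ 4 ≤ a * ‖x 1‖ ^ 4 + b * ‖y 1‖ ^ 4 := by
    have := (convexOn_pow 4).2 (norm_nonneg (x 1)) (norm_nonneg (y 1)) ha hb hab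
    simpa using this
  have g0 : ‖(a • x + b • y) 0‖ ^ 2 ≤ (a * ‖x 0‖ + b * ‖y 0‖) ^ 2 := by gcongr
  have g1 : ‖(a • x + b • y) 1‖ ^ 4 ≤ (a * ‖x 1‖ + b * ‖y 1‖) ^ 4 := by gcongr
  have h5 : a * (‖x 0‖ ^ 2 + ‖x 1‖ ^ 4) + b * (‖y 0‖ ^ 2 + ‖y 1‖ ^ 4) < 1 := by
    rcases eq_or_lt_of_le ha with h | h
    · have hb1 : b = 1 := by linarith
      subst hb1
      rw [← h]
      linarith
    · have h6 : a * (‖x 0‖ ^ 2 + ‖x 1‖ ^ 4) < a * 1 := mul_lt_mul_of_pos_left hx h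
      have h7 : b * (‖y 0‖ ^ 2 + ‖y 1‖ ^ 4) ≤ b * 1 := mul_le_mul_of_nonneg_left hy.le hb
      linarith
  linarith

lemma rho_zero_of_frontier {q : C2} (hq : q ∈ frontier egg) : rho q = 0 := by
  have hc : Continuous rho := (rho_contDiff (n := 0)).continuous
  exact frontier_lt_subset_eq hc continuous_const hq

/-! ### Finite type -/

lemma sq_lower {a x : ℂ} (h : a = 0 ∨ ‖x - a‖ ≤ ‖a‖) : ‖x - a‖ ^ 2 ≤ ‖x ^ 2 - a ^ 2‖ := by
  have e : x ^ 2 - a ^ 2 = (x - a) * (x + a) := by ring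
  rw [e, norm_mul, sq]
  apply mul_le_mul_of_nonneg_left _ (norm_nonneg _)
  rcases h with h | h
  · rw [h]; simp
  · have h1 : (2 : ℂ) * a = (x + a) - (x - a) := by ring
    have h2 : ‖(2 : ℂ) * a‖ ≤ ‖x + a‖ + ‖x - a‖ := by rw [h1]; exact norm_sub_le _ _
    rw [norm_mul, Complex.norm_ofNat] at h2
    linarith

/-- If `f` is holomorphic near `0` with `f 0 = q` in the boundary, `f - q` vanishes to order
exactly `m` and `rho ∘ f = O(|ζ|^k)`, then `k ≤ 4 m`. -/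
lemma type_bound {q : C2} (hq : rho q = 0) {f : ℂ → C2} (hf : AnalyticAt ℂ f 0) (hf0 : f 0 = q)
    {m k : ℕ} (hm : analyticOrderAt (fun ζ => f ζ - q) 0 = m)
    (hk : (fun ζ => rho (f ζ)) =O[𝓝 0] (fun ζ : ℂ => ‖ζ‖ ^ k)) : k ≤ 4 * m := by
  by_contra hlt
  push Not at hlt
  have hfq : AnalyticAt ℂ (fun ζ => f ζ - q) 0 := hf.sub analyticAt_const
  obtain ⟨g, hg, hg0, hgf⟩ := (hfq.analyticOrderAt_eq_natCast).1 hm
  obtain ⟨C, hC0, hC⟩ := hk.exists_pos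
  rw [Asymptotics.IsBigOWith] at hC
  set f0 : ℂ → ℂ := fun ζ => f ζ 0 with hf0'
  set f1 : ℂ → ℂ := fun ζ => f ζ 1 with hf1'
  have haf : ∀ i : Fin 2, AnalyticAt ℂ (fun ζ => f ζ i) 0 := by
    intro i
    exact ((EuclideanSpace.proj i : C2 →L[ℂ] ℂ).analyticAt (f 0)).comp hf
  -- the holomorphic part
  set h : ℂ → ℂ := fun ζ => (starRingEnd ℂ (q 0)) * (f0 ζ - q 0) +
    (starRingEnd ℂ ((q 1) ^ 2)) * ((f1 ζ) ^ 2 - (q 1) ^ 2) with hh
  have hha : AnalyticAt ℂ h 0 := by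
    have h0 := haf 0
    have h1 := haf 1
    exact (analyticAt_const.mul (h0.sub analyticAt_const)).add
      (analyticAt_const.mul ((h1.pow 2).sub analyticAt_const))
  have hh0 : h 0 = 0 := by
    simp only [hh, hf0', hf1', hf0]
    ring
  have hid : ∀ ζ, rho (f ζ) = 2 * (h ζ).re + ‖f0 ζ - q 0‖ ^ 2 +
      ‖(f1 ζ) ^ 2 - (q 1) ^ 2‖ ^ 2 := by
    intro ζ
    have hq' : ‖q 0‖ ^ 2 + ‖(q 1) ^ 2‖ ^ 2 = 1 := by
      have : rho q = ‖q 0‖ ^ 2 + ‖q 1‖ ^ 4 - 1 := rfl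
      rw [norm_pow]
      linarith [hq, (by ring : (‖q 1‖ ^ 2) ^ 2 = ‖q 1‖ ^ 4)]
    have h1 : rho (f ζ) = ‖f0 ζ‖ ^ 2 + ‖(f1 ζ) ^ 2‖ ^ 2 - 1 := by
      unfold rho
      rw [norm_pow]
      simp only [hf0', hf1']
      ring
    rw [h1, ← hq']
    simp only [hh]
    generalize (f1 ζ) ^ 2 = B
    generalize (q 1) ^ 2 = b
    generalize f0 ζ = A
    generalize q 0 = a
    simp only [← Complex.normSq_eq_norm_sq, Complex.normSq_apply, Complex.sub_re, Complex.sub_im,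
      Complex.add_re, Complex.mul_re, Complex.conj_re, Complex.conj_im]
    ring
  -- lower bound
  have hc1 : ∀ᶠ ζ in 𝓝 (0 : ℂ), ‖g 0‖ / 2 * ‖ζ‖ ^ m ≤ ‖f ζ - q‖ := by
    have hcont : Tendsto (fun ζ => ‖g ζ‖) (𝓝 0) (𝓝 ‖g 0‖) := hg.continuousAt.norm
    have hpos : 0 < ‖g 0‖ := norm_pos_iff.2 hg0
    have : ∀ᶠ ζ in 𝓝 (0 : ℂ), ‖g 0‖ / 2 < ‖g ζ‖ := hcont.eventually_const_lt (by linarith)
    filter_upwards [this, hgf] with ζ h1 h2
    rw [h2, norm_smul, norm_pow, sub_zero, mul_comm]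
    gcongr
  have hfc : Tendsto (fun ζ => ‖f ζ - q‖) (𝓝 0) (𝓝 0) := by
    have : ContinuousAt (fun ζ => ‖f ζ - q‖) 0 := (hf.continuousAt.sub continuousAt_const).norm
    have h2 := this.tendsto
    simpa [hf0] using h2
  have hcoord : ∀ ζ, ∀ i : Fin 2, ‖f ζ i - q i‖ ≤ ‖f ζ - q‖ := by
    intro ζ i
    exact PiLp.norm_apply_le (f ζ - q) i
  have hc2 : ∀ᶠ ζ in 𝓝 (0 : ℂ), ‖f ζ - q‖ ^ 4 / 2 ≤ ‖f0 ζ - q 0‖ ^ 2 +
      ‖(f1 ζ) ^ 2 - (q 1) ^ 2‖ ^ 2 := by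
    have e1 : ∀ᶠ ζ in 𝓝 (0 : ℂ), ‖f ζ - q‖ ≤ 1 := hfc.eventually_le_const one_pos
    have e2 : ∀ᶠ ζ in 𝓝 (0 : ℂ), q 1 = 0 ∨ ‖f ζ - q‖ ≤ ‖q 1‖ := by
      by_cases h0 : q 1 = 0
      · exact Eventually.of_forall fun _ => Or.inl h0
      · filter_upwards [hfc.eventually_le_const (norm_pos_iff.2 h0)] with ζ h1
        exact Or.inr h1
    filter_upwards [e1, e2] with ζ h1 h2
    have h3 : ‖f1 ζ - q 1‖ ^ 2 ≤ ‖(f1 ζ) ^ 2 - (q 1) ^ 2‖ := by
      apply sq_lower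
      rcases h2 with h2 | h2
      · exact Or.inl h2
      · exact Or.inr ((hcoord ζ 1).trans h2)
    have h4 : ‖f0 ζ - q 0‖ ≤ 1 := (hcoord ζ 0).trans h1
    have h5 : ‖f ζ - q‖ ^ 2 = ‖f0 ζ - q 0‖ ^ 2 + ‖f1 ζ - q 1‖ ^ 2 := nsq (f ζ - q)
    have h6 : ‖f ζ - q‖ ^ 4 = (‖f0 ζ - q 0‖ ^ 2 + ‖f1 ζ - q 1‖ ^ 2) ^ 2 := by
      rw [← h5]; ring
    rw [h6]
    set X := ‖f0 ζ - q 0‖ with hX
    set Y := ‖f1 ζ - q 1‖ with hY
    set Z := ‖(f1 ζ) ^ 2 - (q 1) ^ 2‖ with hZ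
    have hX0 : 0 ≤ X := norm_nonneg _
    have hXX : X ^ 4 ≤ X ^ 2 := pow_le_pow_of_le_one hX0 h4 (by norm_num)
    have hZZ : (Y ^ 2) ^ 2 ≤ Z ^ 2 := by gcongr
    nlinarith [sq_nonneg (X ^ 2 - Y ^ 2)]
  -- choose the radius
  set c : ℝ := (‖g 0‖ / 2) ^ 4 / 2 with hcdef
  have hcpos : 0 < c := by
    have : 0 < ‖g 0‖ := norm_pos_iff.2 hg0
    positivity
  have hre : ∀ᶠ ζ in 𝓝 (0 : ℂ), 2 * (h ζ).re ≤ C * ‖ζ‖ ^ k - c * ‖ζ‖ ^ (4 * m) := by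
    filter_upwards [hC, hc1, hc2] with ζ h1 h2 h3
    have h4 := hid ζ
    have h5 : rho (f ζ) ≤ C * ‖ζ‖ ^ k := by
      refine (le_abs_self _).trans ?_
      rw [← Real.norm_eq_abs]
      refine h1.trans (le_of_eq ?_)
      rw [norm_pow, norm_norm]
    have h6 : c * ‖ζ‖ ^ (4 * m) ≤ ‖f ζ - q‖ ^ 4 / 2 := by
      have h7 : (‖g 0‖ / 2 * ‖ζ‖ ^ m) ^ 4 ≤ ‖f ζ - q‖ ^ 4 := by gcongr
      have h8 : (‖g 0‖ / 2 * ‖ζ‖ ^ m) ^ 4 = (‖g 0‖ / 2) ^ 4 * ‖ζ‖ ^ (4 * m) := by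
        rw [mul_pow, ← pow_mul, mul_comm m 4]
      rw [hcdef]
      rw [h8] at h7
      linarith
    linarith
  have hhd : ∀ᶠ ζ in 𝓝 (0 : ℂ), DifferentiableAt ℂ h ζ :=
    hha.eventually_analyticAt.mono fun ζ hζ => hζ.differentiableAt
  obtain ⟨δ, hδ, hball⟩ := Metric.eventually_nhds_iff_ball.1 (hre.and hhd)
  obtain ⟨r, hr0, hrδ, hrc⟩ : ∃ r : ℝ, 0 < r ∧ r < δ ∧ C * r < c / 2 ∧ r < 1 := by
    refine ⟨min (min (δ / 2) (c / 2 / (2 * C))) (1 / 2), by positivity, ?_, ?_, ?_⟩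
    · calc _ ≤ δ / 2 := (min_le_left _ _).trans (min_le_left _ _)
        _ < δ := by linarith
    · calc C * min (min (δ / 2) (c / 2 / (2 * C))) (1 / 2) ≤ C * (c / 2 / (2 * C)) := by
            apply mul_le_mul_of_nonneg_left _ hC0.le
            exact (min_le_left _ _).trans (min_le_right _ _)
        _ = c / 4 := by field_simp; norm_num
        _ < c / 2 := by linarith
    · exact (min_le_right _ _).trans_lt (by norm_num)
  -- the maximum principle for exp h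
  have hbd : ∀ ζ ∈ sphere (0 : ℂ) r, ‖Complex.exp (h ζ)‖ ≤ Real.exp (-(c * r ^ (4 * m) / 4)) := by
    intro ζ hζ
    have hζn : ‖ζ‖ = r := by simpa using hζ
    rw [Complex.norm_exp]
    apply Real.exp_le_exp.2
    have h1 := (hball ζ (by rw [mem_ball_zero_iff, hζn]; exact hrδ)).1
    rw [hζn] at h1
    have h2 : r ^ k ≤ r ^ (4 * m + 1) := pow_le_pow_of_le_one hr0.le hrc.2.le hlt
    have h3 : C * r ^ k ≤ c / 2 * r ^ (4 * m) := by
      calc C * r ^ k ≤ C * r ^ (4 * m + 1) := by gcongr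
        _ = (C * r) * r ^ (4 * m) := by rw [pow_succ]; ring
        _ ≤ c / 2 * r ^ (4 * m) := by
            apply mul_le_mul_of_nonneg_right hrc.1.le (by positivity)
    linarith
  have hmax : ‖Complex.exp (h 0)‖ ≤ Real.exp (-(c * r ^ (4 * m) / 4)) := by
    have hdiff : DiffContOnCl ℂ (fun ζ => Complex.exp (h ζ)) (ball 0 r) := by
      apply DifferentiableOn.diffContOnCl
      rw [closure_ball 0 hr0.ne']
      intro ζ hζ
      have : ζ ∈ ball (0 : ℂ) δ := closedBall_subset_ball hrδ hζ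
      exact ((hball ζ this).2.cexp).differentiableWithinAt
    apply Complex.norm_le_of_forall_mem_frontier_norm_le isBounded_ball hdiff _
      (subset_closure (mem_ball_self hr0))
    intro ζ hζ
    rw [frontier_ball 0 hr0.ne'] at hζ
    exact hbd ζ hζ
  rw [hh0, Complex.exp_zero, norm_one] at hmax
  have : Real.exp (-(c * r ^ (4 * m) / 4)) < 1 := by
    rw [Real.exp_lt_one_iff]
    have : 0 < c * r ^ (4 * m) := by positivity
    linarith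
  linarith

end Q72.SQ
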